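import Pool.Agent.H811R4.SD.All
import Pool.Agent.H811R4.SD.Conv

/-! Every II₁ factor is solid if and only if it is `U`-solid, for every nonprincipal ultrafilter
`U` on `ℕ`. No separability is assumed. -/

set_option autoImplicit false

open Pool.Agent.Helper278 Pool.Agent.H811R4.SolidStmt

namespace Pool.Agent.Results.MP_f5929e_an.SolidIffUSolid

theorem result {H : Type} [NormedAddCommGroup H] [InnerProductSpace ℂ H] [CompleteSpace H]
    (M : VonNeumannAlgebra H) (τ : Elt M → ℂ) (hM : IsIIOneFactor M τ) (U : Ultrafilter ℕ)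
    (hU : ∀ n, {n} ∉ U) : IsSolid M τ ↔ IsUSolid M τ U :=
  (H811R4.SD.solid_iff' M τ).trans
    ((H811R4.SD.solid_iff H811R4.SD.pBACK H811R4.SD.pFWD M τ hM U hU).trans
      (H811R4.SD.usolid_iff' M τ U).symm)

end Pool.Agent.Results.MP_f5929e_an.SolidIffUSolid
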